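import Mathlib

/-!
# Weights at all scales from weights at each scale
-/

set_option autoImplicit false

namespace Pool.Agent.Helper25.SNMulti

/-- the discrepancy of the weight `w` on `A × B`, as a sum over pairs -/
lemma sum_eq {V : Type*} (e w : V → V → ℝ) (A B : Finset V) :
    ∑ a ∈ A, ∑ b ∈ B, (w a b * e a b - 1) = ∑ p ∈ A ×ˢ B, (w p.1 p.2 * e p.1 p.2 - 1) :=
  (Finset.sum_product' A B (fun a b => w a b * e a b - 1)).symm

/-- two weights which agree outside `A' × B'` -/
lemma sum_diff {V : Type*} [DecidableEq V] (e w w' : V → V → ℝ) {A B A' B' : Finset V} (hA : A' ⊆ A) (hB : B' ⊆ B)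
    (h : ∀ a ∈ A, ∀ b ∈ B, ¬(a ∈ A' ∧ b ∈ B') → w a b = w' a b) :
    ∑ a ∈ A, ∑ b ∈ B, (w a b * e a b - 1) =
      ∑ a ∈ A', ∑ b ∈ B', (w a b * e a b - 1) +
        (∑ a ∈ A, ∑ b ∈ B, (w' a b * e a b - 1) - ∑ a ∈ A', ∑ b ∈ B', (w' a b * e a b - 1)) := by
  have hs : A' ×ˢ B' ⊆ A ×ˢ B := Finset.product_subset_product hA hB
  rw [sum_eq, sum_eq, sum_eq, sum_eq, ← Finset.sum_sdiff hs, ← Finset.sum_sdiff hs]
  have key : ∑ p ∈ (A ×ˢ B) \ (A' ×ˢ B'), (w p.1 p.2 * e p.1 p.2 - 1) =
      ∑ p ∈ (A ×ˢ B) \ (A' ×ˢ B'), (w' p.1 p.2 * e p.1 p.2 - 1) := by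
    refine Finset.sum_congr rfl fun p hp => ?_
    rw [Finset.mem_sdiff, Finset.mem_product, Finset.mem_product] at hp
    rw [h p.1 hp.1.1 p.2 hp.1.2 hp.2]
  rw [key]
  ring

theorem multiscale {V : Type*} [Fintype V] [DecidableEq V] (e : V → V → ℝ) (lev : V → ℕ)
    (lo hi c : ℝ) (hc : 0 ≤ c)
    (h : ∀ l : ℕ, ∃ w : V → V → ℝ, (∀ u v, w u v = w v u) ∧ (∀ u v, lo ≤ w u v ∧ w u v ≤ hi) ∧
      ∀ A B : Finset V, (∀ a ∈ A, lev a ≤ l) → (∀ b ∈ B, lev b ≤ l) →
        |∑ a ∈ A, ∑ b ∈ B, (w a b * e a b - 1)| ≤ c * 4 ^ l) :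
    ∃ w : V → V → ℝ, (∀ u v, w u v = w v u) ∧ (∀ u v, lo ≤ w u v ∧ w u v ≤ hi) ∧
      ∀ (L : ℕ) (A B : Finset V), (∀ a ∈ A, lev a ≤ L) → (∀ b ∈ B, lev b ≤ L) →
        |∑ a ∈ A, ∑ b ∈ B, (w a b * e a b - 1)| ≤ 3 * c * 4 ^ L := by
  choose W hsym hbd hW using h
  refine ⟨fun u v => W (max (lev u) (lev v)) u v, fun u v => ?_, fun u v => hbd _ u v, ?_⟩
  · show W (max (lev u) (lev v)) u v = W (max (lev v) (lev u)) v u
    rw [max_comm (lev v) (lev u)]
    exact hsym _ u v
  · have key : ∀ (L : ℕ) (A B : Finset V), (∀ a ∈ A, lev a ≤ L) → (∀ b ∈ B, lev b ≤ L) →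
        |∑ a ∈ A, ∑ b ∈ B, (W (max (lev a) (lev b)) a b * e a b - 1)| ≤ 8 / 3 * c * 4 ^ L := by
      intro L
      induction L with
      | zero =>
        intro A B hA hB
        have h1 : ∑ a ∈ A, ∑ b ∈ B, (W (max (lev a) (lev b)) a b * e a b - 1) =
            ∑ a ∈ A, ∑ b ∈ B, (W 0 a b * e a b - 1) := by
          refine Finset.sum_congr rfl fun a ha => Finset.sum_congr rfl fun b hb => ?_
          have ha0 : lev a = 0 := Nat.le_zero.mp (hA a ha)
          have hb0 : lev b = 0 := Nat.le_zero.mp (hB b hb)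
          rw [ha0, hb0, max_self]
        rw [h1]
        have h2 := hW 0 A B hA hB
        simp only [pow_zero, mul_one] at h2 ⊢
        linarith
      | succ L ih =>
        intro A B hA hB
        set A' : Finset V := A.filter (fun a => lev a ≤ L) with hA'
        set B' : Finset V := B.filter (fun b => lev b ≤ L) with hB'
        have hAs : A' ⊆ A := Finset.filter_subset _ _
        have hBs : B' ⊆ B := Finset.filter_subset _ _
        have hA'l : ∀ a ∈ A', lev a ≤ L := fun a ha => (Finset.mem_filter.mp ha).2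
        have hB'l : ∀ b ∈ B', lev b ≤ L := fun b hb => (Finset.mem_filter.mp hb).2
        have h1 := sum_diff e (fun a b => W (max (lev a) (lev b)) a b) (W (L + 1)) hAs hBs (by
          intro a ha b hb hab
          have h2 : max (lev a) (lev b) = L + 1 := by
            have ha1 := hA a ha
            have hb1 := hB b hb
            by_contra hne
            apply hab
            have : max (lev a) (lev b) ≤ L := by
              have : max (lev a) (lev b) ≤ L + 1 := max_le ha1 hb1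
              omega
            exact ⟨Finset.mem_filter.mpr ⟨ha, (le_max_left _ _).trans this⟩,
              Finset.mem_filter.mpr ⟨hb, (le_max_right _ _).trans this⟩⟩
          show W (max (lev a) (lev b)) a b = W (L + 1) a b
          rw [h2])
        have h3 := ih A' B' hA'l hB'l
        have h4 := hW (L + 1) A B hA hB
        have h5 := hW (L + 1) A' B' (fun a ha => (hA'l a ha).trans (Nat.le_succ L))
          (fun b hb => (hB'l b hb).trans (Nat.le_succ L))
        rw [h1]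
        have h6 : (4 : ℝ) ^ (L + 1) = 4 * 4 ^ L := by rw [pow_succ]; ring
        rw [abs_le] at h3 h4 h5 ⊢
        rw [h6] at h4 h5 ⊢
        have h7 : 0 ≤ c * 4 ^ L := mul_nonneg hc (by positivity)
        constructor
        · nlinarith [h3.1, h4.1, h5.2]
        · nlinarith [h3.2, h4.2, h5.1]
    intro L A B hA hB
    refine (key L A B hA hB).trans ?_
    have h7 : 0 ≤ c * 4 ^ L := mul_nonneg hc (by positivity)
    nlinarith

end Pool.Agent.Helper25.SNMulti
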