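import Pool.Agent.Helper39.VC.BlkDefs

/-! # Splitting the trace on the coinvariants into the blocks of constant height -/

set_option linter.unusedSimpArgs false

namespace Pool.Agent.Helper39.VC
open Finset Matrix

/-- block sizes -/
def bsz (n : ℕ) (h : Fin n ⊕ Fin (n-1)) : ℕ :=
  Sum.elim (fun d : Fin n => n - (d:ℕ)) (fun d : Fin (n-1) => n - ((d:ℕ)+1)) h

/-- first coordinate -/
def bf (n : ℕ) (h : Fin n ⊕ Fin (n-1)) (a : ℕ) : ℕ :=
  Sum.elim (fun d : Fin n => a + (d:ℕ)) (fun _ => a) h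

/-- second coordinate -/
def bg (n : ℕ) (h : Fin n ⊕ Fin (n-1)) (a : ℕ) : ℕ :=
  Sum.elim (fun _ => a) (fun d : Fin (n-1) => a + ((d:ℕ)+1)) h

theorem bf_lt {n : ℕ} (h : Fin n ⊕ Fin (n-1)) (a : Fin (bsz n h)) : bf n h a < n := by
  have ha := a.2
  rcases h with d | d
  · have hd := d.2
    simp only [bsz, bf, Sum.elim_inl] at ha ⊢
    omega
  · have hd := d.2
    simp only [bsz, bf, Sum.elim_inr] at ha ⊢
    omega

theorem bg_lt {n : ℕ} (h : Fin n ⊕ Fin (n-1)) (a : Fin (bsz n h)) : bg n h a < n := by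
  have ha := a.2
  rcases h with d | d
  · have hd := d.2
    simp only [bsz, bg, Sum.elim_inl] at ha ⊢
    omega
  · have hd := d.2
    simp only [bsz, bg, Sum.elim_inr] at ha ⊢
    omega

/-- the points sorted by height -/
def bmap (n : ℕ) (x : Σ h : Fin n ⊕ Fin (n-1), Fin (bsz n h)) : Fin n × Fin n :=
  (⟨bf n x.1 x.2, bf_lt x.1 x.2⟩, ⟨bg n x.1 x.2, bg_lt x.1 x.2⟩)

theorem bmap_inj (n : ℕ) : Function.Injective (bmap n) := by
  rintro ⟨h, a⟩ ⟨h', a'⟩ hx
  simp only [bmap, Prod.mk.injEq, Fin.mk.injEq] at hx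
  obtain ⟨h1, h2⟩ := hx
  have hh : h = h' := by
    rcases h with d | d <;> rcases h' with d' | d' <;>
      simp only [bf, bg, Sum.elim_inl, Sum.elim_inr] at h1 h2
    · congr 1
      apply Fin.ext
      omega
    · omega
    · omega
    · congr 1
      apply Fin.ext
      omega
  subst hh
  have ha : a = a' := by
    rcases h with d | d <;> simp only [bf, bg, Sum.elim_inl, Sum.elim_inr] at h1 h2
    · exact Fin.ext h2
    · exact Fin.ext h1
  subst ha
  rfl

theorem bmap_surj (n : ℕ) : Function.Surjective (bmap n) := by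
  rintro ⟨i, j⟩
  have hi := i.2
  have hj := j.2
  by_cases h : (j:ℕ) ≤ (i:ℕ)
  · refine ⟨⟨Sum.inl ⟨(i:ℕ) - (j:ℕ), by omega⟩, ⟨(j:ℕ), ?_⟩⟩, ?_⟩
    · simp only [bsz, Sum.elim_inl]
      omega
    · simp only [bmap, Prod.mk.injEq]
      constructor
      · apply Fin.ext
        simp only [bf, Sum.elim_inl]
        omega
      · apply Fin.ext
        simp only [bg, Sum.elim_inl]
  · refine ⟨⟨Sum.inr ⟨(j:ℕ) - (i:ℕ) - 1, by omega⟩, ⟨(i:ℕ), ?_⟩⟩, ?_⟩
    · simp only [bsz, Sum.elim_inr]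
      omega
    · simp only [bmap, Prod.mk.injEq]
      constructor
      · apply Fin.ext
        simp only [bf, Sum.elim_inr]
      · apply Fin.ext
        simp only [bg, Sum.elim_inr]
        omega

/-- the points sorted by height, as an equivalence -/
noncomputable def bequiv (n : ℕ) : (Σ h : Fin n ⊕ Fin (n-1), Fin (bsz n h)) ≃ Fin n × Fin n :=
  Equiv.ofBijective (bmap n) ⟨bmap_inj n, bmap_surj n⟩

/-- blocks of `Um` -/
noncomputable def Ub (n : ℕ) (h : Fin n ⊕ Fin (n-1)) :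
    Matrix (Fin (bsz n h)) (Fin (bsz n h)) ℂ :=
  fun a' a => uc n (bf n h a') (bf n h a)

/-- blocks of `Nm` -/
noncomputable def Nb (n : ℕ) (h : Fin n ⊕ Fin (n-1)) :
    Matrix (Fin (bsz n h)) (Fin (bsz n h)) ℂ :=
  fun a' a => qr n ^ (2 * (((bg n h a:ℕ):ℤ) - ((bf n h a:ℕ):ℤ)) *
      (((bf n h a':ℕ):ℤ) - ((bf n h a:ℕ):ℤ)))
      * (starRingEnd ℂ) (uc n (bg n h a) (bg n h a'))

theorem height_eq {n : ℕ} {h h' : Fin n ⊕ Fin (n-1)} {a a' : ℕ} :
    bf n h' a' + bg n h a = bf n h a + bg n h' a' ↔ h' = h := by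
  constructor
  · intro e
    rcases h with d | d <;> rcases h' with d' | d' <;>
      simp only [bf, bg, Sum.elim_inl, Sum.elim_inr] at e
    · congr 1
      apply Fin.ext
      omega
    · omega
    · omega
    · congr 1
      apply Fin.ext
      omega
  · rintro rfl
    rcases h' with d' | d' <;> simp only [bf, bg, Sum.elim_inl, Sum.elim_inr] <;> omega

theorem Um_blocks (n : ℕ) :
    (Um n).submatrix (bequiv n) (bequiv n) = blockDiagonal' (Ub n) := by
  ext ⟨h', a'⟩ ⟨h, a⟩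
  rw [submatrix_apply]
  change (if bf n h' a' + bg n h a = bf n h a + bg n h' a' then
    uc n (bf n h' a') (bf n h a) else 0) = _
  by_cases hh : h' = h
  · subst hh
    rw [if_pos (height_eq.mpr rfl), blockDiagonal'_apply_eq]
    rfl
  · rw [if_neg (fun e => hh (height_eq.mp e)), blockDiagonal'_apply_ne _ _ _ hh]

theorem Nm_blocks (n : ℕ) :
    (Nm n).submatrix (bequiv n) (bequiv n) = blockDiagonal' (Nb n) := by
  ext ⟨h', a'⟩ ⟨h, a⟩
  rw [submatrix_apply]
  change (if bf n h' a' + bg n h a = bf n h a + bg n h' a' then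
    qr n ^ (2 * (((bg n h a:ℕ):ℤ) - ((bf n h a:ℕ):ℤ)) *
      (((bf n h' a':ℕ):ℤ) - ((bf n h a:ℕ):ℤ)))
      * (starRingEnd ℂ) (uc n (bg n h a) (bg n h' a')) else 0) = _
  by_cases hh : h' = h
  · subst hh
    rw [if_pos (height_eq.mpr rfl), blockDiagonal'_apply_eq]
    rfl
  · rw [if_neg (fun e => hh (height_eq.mp e)), blockDiagonal'_apply_ne _ _ _ hh]

theorem trace_submatrix' {α β : Type*} [Fintype α] [Fintype β] (g : α ≃ β) (M : Matrix β β ℂ) :
    (M.submatrix g g).trace = M.trace := by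
  simp only [Matrix.trace, diag_apply, submatrix_apply]
  exact Equiv.sum_comp g (fun i => M i i)

theorem submatrix_pow' {α β : Type*} [Fintype α] [Fintype β] [DecidableEq α] [DecidableEq β]
    (g : α ≃ β) (M : Matrix β β ℂ) (k : ℕ) :
    (M ^ k).submatrix g g = (M.submatrix g g) ^ k := by
  induction k with
  | zero => simp
  | succ k ih => rw [pow_succ, pow_succ, ← ih, submatrix_mul_equiv]

/-- conjugation by a diagonal matrix -/
theorem diag_conj_pow {α : Type*} [Fintype α] [DecidableEq α] (w : α → ℂ)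
    (A B : Matrix α α ℂ) (h : ∀ i j, w i * A i j = B i j * w j) (k : ℕ) :
    diagonal w * A ^ k = B ^ k * diagonal w := by
  have h1 : diagonal w * A = B * diagonal w := by
    ext i j
    rw [diagonal_mul, mul_diagonal]
    exact h i j
  induction k with
  | zero => simp
  | succ k ih => rw [pow_succ, ← mul_assoc, ih, mul_assoc, h1, ← mul_assoc, ← pow_succ]

theorem trace_conj_diag {α : Type*} [Fintype α] [DecidableEq α] (w : α → ℂ) (hw : ∀ i, w i ≠ 0)
    (A B : Matrix α α ℂ) (h : diagonal w * A = B * diagonal w) : A.trace = B.trace := by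
  have h2 : diagonal w * diagonal (fun i => (w i)⁻¹) = 1 := by
    rw [diagonal_mul_diagonal, ← diagonal_one]
    congr 1
    funext i
    exact mul_inv_cancel₀ (hw i)
  have h3 : diagonal (fun i => (w i)⁻¹) * diagonal w = 1 := by
    rw [diagonal_mul_diagonal, ← diagonal_one]
    congr 1
    funext i
    exact inv_mul_cancel₀ (hw i)
  calc A.trace = (diagonal (fun i => (w i)⁻¹) * (diagonal w * A)).trace := by
        rw [← mul_assoc, h3, one_mul]
    _ = (diagonal (fun i => (w i)⁻¹) * (B * diagonal w)).trace := by rw [h]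
    _ = (B * diagonal w * diagonal (fun i => (w i)⁻¹)).trace := trace_mul_comm _ _
    _ = B.trace := by rw [mul_assoc, h2, mul_one]

theorem trace_pow_comm {α : Type*} [Fintype α] [DecidableEq α] (A B : Matrix α α ℂ) (m : ℕ) :
    ((A * B) ^ m).trace = ((B * A) ^ m).trace := by
  rcases m with _ | m
  · simp
  · have h : ∀ k : ℕ, (A * B) ^ (k+1) = A * (B * A) ^ k * B := by
      intro k
      induction k with
      | zero => simp
      | succ k ih => rw [pow_succ, ih, pow_succ]; simp only [mul_assoc]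
    rw [h m, trace_mul_comm, ← mul_assoc, pow_succ' (B * A) m]

/-- the blocks of negative height -/
theorem neg_block {n d N : ℕ} (e m : ℕ) (U V : Matrix (Fin N) (Fin N) ℂ)
    (hU : ∀ a' a, U a' a = uc n (a':ℕ) (a:ℕ))
    (hV : ∀ a' a, V a' a = qr n ^ (2 * (d:ℤ) * (((a':ℕ):ℤ) - ((a:ℕ):ℤ)))
      * (starRingEnd ℂ) (uc n ((a:ℕ) + d) ((a':ℕ) + d))) :
    ((U ^ e * V ^ e) ^ m).trace
      = (starRingEnd ℂ) (((Rm n d N ^ e * Tm n d N ^ e) ^ m).trace) := by
  have hq := qr_ne n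
  have e1 : (starRingEnd ℂ) (((Rm n d N ^ e * Tm n d N ^ e) ^ m).trace)
      = (((Rm n d N)ᴴ ^ e * (Tm n d N)ᴴ ^ e) ^ m).trace := by
    rw [← trace_pow_comm, ← conjTranspose_pow, ← conjTranspose_pow, ← conjTranspose_mul,
      ← conjTranspose_pow, trace_conjTranspose]
    rfl
  rw [e1, trace_pow_comm]
  set w : Fin N → ℂ := fun a => qr n ^ (-(2 * (d:ℤ) * ((a:ℕ):ℤ))) with hw
  have hw0 : ∀ i, w i ≠ 0 := fun i => zpow_ne_zero _ hq
  have f1 : ∀ i j, w i * V i j = (Rm n d N)ᴴ i j * w j := by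
    intro i j
    rw [hV, conjTranspose_apply]
    simp only [hw, Rm]
    have z : qr n ^ (-(2 * (d:ℤ) * ((i:ℕ):ℤ))) * qr n ^ (2 * (d:ℤ) * (((i:ℕ):ℤ) - ((j:ℕ):ℤ)))
        = qr n ^ (-(2 * (d:ℤ) * ((j:ℕ):ℤ))) := by
      rw [← zpow_add₀ hq]
      congr 1
      ring
    rw [← mul_assoc, z, mul_comm]
    rfl
  have f2 : ∀ i j, w i * U i j = (Tm n d N)ᴴ i j * w j := by
    intro i j
    rw [hU, conjTranspose_apply]
    simp only [hw, Tm]
    rw [star_mul', RCLike.star_def, Complex.conj_conj]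
    have z0 : (starRingEnd ℂ) (qr n ^ (2 * (d:ℤ) * (((i:ℕ):ℤ) - ((j:ℕ):ℤ))))
        = qr n ^ (-(2 * (d:ℤ) * (((i:ℕ):ℤ) - ((j:ℕ):ℤ)))) := by
      rw [qr_conj]
    have z : qr n ^ (-(2 * (d:ℤ) * (((i:ℕ):ℤ) - ((j:ℕ):ℤ)))) * qr n ^ (-(2 * (d:ℤ) * ((j:ℕ):ℤ)))
        = qr n ^ (-(2 * (d:ℤ) * ((i:ℕ):ℤ))) := by
      rw [← zpow_add₀ hq]
      congr 1
      ring
    rw [z0, ← z]
    ring
  have g1 := diag_conj_pow w _ _ f1 e
  have g2 := diag_conj_pow w _ _ f2 e
  have g3 : diagonal w * (V ^ e * U ^ e) = ((Rm n d N)ᴴ ^ e * (Tm n d N)ᴴ ^ e) * diagonal w := by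
    rw [← mul_assoc, g1, mul_assoc, g2, ← mul_assoc]
  have g4 : diagonal w * (V ^ e * U ^ e) ^ m
      = ((Rm n d N)ᴴ ^ e * (Tm n d N)ᴴ ^ e) ^ m * diagonal w := by
    apply diag_conj_pow w
    intro i j
    have := congrFun (congrFun g3 i) j
    rwa [diagonal_mul, mul_diagonal] at this
  exact trace_conj_diag w hw0 _ _ g4

theorem trace_split {n : ℕ} (hn : 0 < n) (e m : ℕ) :
    ((Um n ^ e * Nm n ^ e) ^ m).trace
      = ∑ d ∈ range n, tb n e m d + ∑ d ∈ Ico 1 n, (starRingEnd ℂ) (tb n e m d) := by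
  have h1 : ((Um n ^ e * Nm n ^ e) ^ m).submatrix (bequiv n) (bequiv n)
      = blockDiagonal' (fun h => (Ub n h ^ e * Nb n h ^ e) ^ m) := by
    rw [submatrix_pow', ← submatrix_mul_equiv _ _ _ (bequiv n) _, submatrix_pow', submatrix_pow',
      Um_blocks, Nm_blocks, ← blockDiagonal'_pow, ← blockDiagonal'_pow, ← blockDiagonal'_mul,
      ← blockDiagonal'_pow]
    rfl
  rw [← trace_submatrix' (bequiv n), h1, trace_blockDiagonal', Fintype.sum_sum_type,
    Finset.sum_range, Finset.sum_Ico_eq_sum_range, Finset.sum_range]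
  congr 1
  · apply sum_congr rfl
    intro d _
    unfold tb
    have a1 : Ub n (Sum.inl d) = Rm n d (n-d) := rfl
    have a2 : Nb n (Sum.inl d) = Tm n d (n-d) := by
      ext a' a
      simp only [Nb, Tm, bf, bg, Sum.elim_inl]
      congr 2
      push_cast
      ring
    rw [← a1, ← a2]
    rfl
  · apply sum_congr rfl
    intro d _
    have a3 : n - (1 + (d:ℕ)) = n - ((d:ℕ) + 1) := by omega
    unfold tb
    rw [add_comm 1 (d:ℕ)]
    apply neg_block
    · intro a' a
      rfl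
    · intro a' a
      simp only [Nb, bf, bg, Sum.elim_inr]
      congr 2
      push_cast
      ring

end Pool.Agent.Helper39.VC
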