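import Mathlib

set_option autoImplicit false

/-!
Definitions for the problem on v-numbers and regularity of powers of monomial ideals.
-/

namespace Pool.Agent.Helper25.VReg

open MvPolynomial

variable {K : Type*} [Field K] {n : ℕ}

/-- `I` is a monomial ideal of the polynomial ring in `n` variables over `K`. -/
def IsMonomialIdeal (I : Ideal (MvPolynomial (Fin n) K)) : Prop :=
  ∃ A : Set (Fin n →₀ ℕ), I = Ideal.span ((fun s => monomial s (1 : K)) '' A)

/-- `m` is the v-number of `I`: the least degree of a homogeneous `f` such that the colon ideal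
`(I : f)` is equal to a prime ideal `p` (such a `p` is an associated prime of `I`). -/
def IsVNumber (I : Ideal (MvPolynomial (Fin n) K)) (m : ℤ) : Prop :=
  IsLeast {d : ℤ | ∃ e : ℕ, (e : ℤ) = d ∧ ∃ f : MvPolynomial (Fin n) K, f.IsHomogeneous e ∧
    ∃ p : Ideal (MvPolynomial (Fin n) K), p.IsPrime ∧ I.colon {f} = p} m

/-- The differential of the Koszul complex on the variables; a chain is given by its coefficients
`f T` on the basis elements `e_T`, where `T` is a set of variables:
`(∂ f) T = ∑_{i ∉ T} (-1)^{#{j ∈ T : j < i}} x_i f (T ∪ {i})`. -/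
noncomputable def koszulD (f : Finset (Fin n) → MvPolynomial (Fin n) K) :
    Finset (Fin n) → MvPolynomial (Fin n) K :=
  fun T => ∑ i ∈ Tᶜ, (-1) ^ (T.filter (fun j => j < i)).card * X i * f (insert i T)

/-- `f` is a chain of homological degree `p` and internal degree `j` of the Koszul complex of the
variables with coefficients in the ideal `J` (the basis element `e_T` has degree `|T|`). -/
def IsKoszulChain (J : Ideal (MvPolynomial (Fin n) K)) (p j : ℕ)
    (f : Finset (Fin n) → MvPolynomial (Fin n) K) : Prop :=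
  ∀ T : Finset (Fin n), f T ∈ J ∧
    (f T ≠ 0 → T.card = p ∧ ∃ e : ℕ, e + p = j ∧ (f T).IsHomogeneous e)

/-- The graded Betti number `β_{p,j}(J) = dim_K Tor_p(J, K)_j` is nonzero: the `p`-th Koszul
homology of `J` has a nonzero class of internal degree `j`. -/
def BettiNonzero (J : Ideal (MvPolynomial (Fin n) K)) (p j : ℕ) : Prop :=
  ∃ f : Finset (Fin n) → MvPolynomial (Fin n) K, IsKoszulChain J p j f ∧ koszulD f = 0 ∧
    ¬ ∃ g : Finset (Fin n) → MvPolynomial (Fin n) K, IsKoszulChain J (p + 1) j g ∧ koszulD g = f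

/-- `r` is the Castelnuovo–Mumford regularity of `J`: the greatest `j - p` with
`β_{p,j}(J) ≠ 0`. -/
def IsRegularity (J : Ideal (MvPolynomial (Fin n) K)) (r : ℤ) : Prop :=
  IsGreatest {m : ℤ | ∃ p j : ℕ, BettiNonzero J p j ∧ m = (j : ℤ) - (p : ℤ)} r

/-- The conditions which the problem puts on the quadruple `(a, b, c, d)`. -/
def Admissible (a b c d : ℤ) : Prop :=
  1 ≤ a ∧ -1 ≤ b ∧ 1 ≤ c ∧ 0 ≤ d ∧ ∀ᶠ k : ℕ in Filter.atTop, a * k + b ≤ c * k + d

/-- The quadruple `(a, b, c, d)` is realised over `K`: some proper monomial ideal `I` of a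
polynomial ring in finitely many variables over `K` has `v(I^k) = a k + b` and
`reg(I^k) = c k + d` for all large `k`. -/
def Realised (K : Type*) [Field K] (a b c d : ℤ) : Prop :=
  ∃ (n : ℕ) (I : Ideal (MvPolynomial (Fin n) K)), IsMonomialIdeal I ∧ I ≠ ⊤ ∧
    ∀ᶠ k : ℕ in Filter.atTop, IsVNumber (I ^ k) (a * k + b) ∧ IsRegularity (I ^ k) (c * k + d)

end Pool.Agent.Helper25.VReg
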