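import Pool.Agent.Helper25.VRegDefs

set_option autoImplicit false

namespace Pool.Agent.Helper25.VReg

open MvPolynomial

variable {K : Type*} [Field K] {n : ℕ}

/-! ### Monomial ideals and their powers -/

/-- the monomial with exponent `s` lies in the `k`-th power of `I` -/
def P (I : Ideal (MvPolynomial (Fin n) K)) (k : ℕ) (s : Fin n →₀ ℕ) : Prop :=
  monomial s (1 : K) ∈ I ^ k

theorem IsMonomialIdeal.mul {I J : Ideal (MvPolynomial (Fin n) K)} (hI : IsMonomialIdeal I)
    (hJ : IsMonomialIdeal J) :
    ∃ A B : Set (Fin n →₀ ℕ), I = Ideal.span ((fun s => monomial s (1 : K)) '' A) ∧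
      J = Ideal.span ((fun s => monomial s (1 : K)) '' B) ∧
      I * J = Ideal.span ((fun s => monomial s (1 : K)) '' (Set.image2 (· + ·) A B)) := by
  obtain ⟨A, rfl⟩ := hI
  obtain ⟨B, rfl⟩ := hJ
  refine ⟨A, B, rfl, rfl, ?_⟩
  rw [Ideal.span_mul_span']
  congr 1
  ext x
  simp only [Set.mem_mul, Set.mem_image, Set.mem_image2]
  constructor
  · rintro ⟨_, ⟨a, ha, rfl⟩, _, ⟨b, hb, rfl⟩, rfl⟩
    exact ⟨a + b, ⟨a, ha, b, hb, rfl⟩, by rw [monomial_mul, one_mul]⟩
  · rintro ⟨_, ⟨a, ha, b, hb, rfl⟩, rfl⟩
    exact ⟨_, ⟨a, ha, rfl⟩, _, ⟨b, hb, rfl⟩, by rw [monomial_mul, one_mul]⟩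

theorem IsMonomialIdeal.one : IsMonomialIdeal (1 : Ideal (MvPolynomial (Fin n) K)) :=
  ⟨{0}, by
    simp only [Set.image_singleton, monomial_zero', C_1]
    rw [Ideal.one_eq_top, Ideal.span_singleton_one]⟩

theorem IsMonomialIdeal.pow {I : Ideal (MvPolynomial (Fin n) K)} (hI : IsMonomialIdeal I) (k : ℕ) :
    IsMonomialIdeal (I ^ k) := by
  induction k with
  | zero => rw [pow_zero]; exact IsMonomialIdeal.one
  | succ k ih =>
    rw [pow_succ]
    obtain ⟨A, B, _, _, h⟩ := ih.mul hI
    exact ⟨_, h⟩

theorem IsMonomialIdeal.mem_iff {I : Ideal (MvPolynomial (Fin n) K)} (hI : IsMonomialIdeal I)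
    (f : MvPolynomial (Fin n) K) :
    f ∈ I ↔ ∀ s ∈ f.support, monomial s (1 : K) ∈ I := by
  obtain ⟨A, rfl⟩ := hI
  rw [mem_ideal_span_monomial_image]
  refine forall₂_congr fun s _ => ?_
  rw [mem_ideal_span_monomial_image]
  constructor
  · rintro ⟨a, ha, h⟩ x hx
    have := support_monomial_subset hx
    rw [Finset.mem_singleton] at this
    exact ⟨a, ha, this ▸ h⟩
  · intro h
    exact h s (by simp)

theorem mem_pow_iff {I : Ideal (MvPolynomial (Fin n) K)} (hI : IsMonomialIdeal I)
    (k : ℕ) (f : MvPolynomial (Fin n) K) :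
    f ∈ I ^ k ↔ ∀ s ∈ f.support, P I k s := (hI.pow k).mem_iff f

theorem P_zero (I : Ideal (MvPolynomial (Fin n) K)) (s : Fin n →₀ ℕ) : P I 0 s := by
  simp [P]

theorem P_add {I : Ideal (MvPolynomial (Fin n) K)} {j k : ℕ} {s t : Fin n →₀ ℕ}
    (hs : P I j s) (ht : P I k t) : P I (j + k) (s + t) := by
  unfold P at *
  have h : monomial (s + t) (1 : K) = monomial s 1 * monomial t 1 := by
    rw [monomial_mul, one_mul]
  rw [pow_add, h]
  exact Ideal.mul_mem_mul hs ht

theorem P_mono {I : Ideal (MvPolynomial (Fin n) K)} {k : ℕ} {s t : Fin n →₀ ℕ}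
    (hs : P I k s) (h : s ≤ t) : P I k t := by
  unfold P at *
  have h' : monomial t (1 : K) = monomial (t - s) 1 * monomial s 1 := by
    rw [monomial_mul, one_mul, tsub_add_cancel_of_le h]
  rw [h']
  exact Ideal.mul_mem_left _ _ hs

theorem P_anti {I : Ideal (MvPolynomial (Fin n) K)} {k m : ℕ} {s : Fin n →₀ ℕ}
    (hs : P I k s) (h : m ≤ k) : P I m s :=
  Ideal.pow_le_pow_right h hs

theorem P_succ {I : Ideal (MvPolynomial (Fin n) K)} (hI : IsMonomialIdeal I) {k : ℕ}
    {s : Fin n →₀ ℕ} (hs : P I (k + 1) s) : ∃ t r, s = t + r ∧ P I 1 t ∧ P I k r := by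
  unfold P at hs
  rw [pow_succ] at hs
  obtain ⟨A, B, hA, hB, h⟩ := (hI.pow k).mul hI
  rw [h, mem_ideal_span_monomial_image] at hs
  obtain ⟨_, ⟨a, ha, b, hb, rfl⟩, hab⟩ := hs s (by simp)
  refine ⟨s - a, a, (tsub_add_cancel_of_le (le_trans (by simp) hab)).symm, ?_, ?_⟩
  · refine P_mono (s := b) ?_ ?_
    · unfold P
      rw [pow_one, hB]
      exact Ideal.subset_span ⟨b, hb, rfl⟩
    · exact le_tsub_of_add_le_left hab
  · unfold P
    rw [hA]
    exact Ideal.subset_span ⟨a, ha, rfl⟩

theorem P_nsmul {I : Ideal (MvPolynomial (Fin n) K)} {s : Fin n →₀ ℕ}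
    (hs : P I 1 s) (k : ℕ) : P I k (k • s) := by
  induction k with
  | zero => exact P_zero _ _
  | succ k ih =>
    rw [succ_nsmul]
    exact P_add ih hs

/-! ### Consequences of the vanishing of Koszul homology -/

theorem not_betti {J : Ideal (MvPolynomial (Fin n) K)} {r : ℤ} (h : IsRegularity J r) {p j : ℕ}
    (hpj : r < (j : ℤ) - p) : ¬ BettiNonzero J p j := fun hb =>
  absurd (h.2 ⟨p, j, hb, rfl⟩) (not_le.mpr hpj)

/-- `H_0` : generators of `I ^ k` have degree at most the regularity. -/
theorem betti_zero {I : Ideal (MvPolynomial (Fin n) K)} (hI : IsMonomialIdeal I) {k : ℕ}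
    {s : Fin n →₀ ℕ} (hb : ¬ BettiNonzero (I ^ k) 0 s.degree) (hs : P I k s) :
    ∃ i, s i ≠ 0 ∧ P I k (s - Finsupp.single i 1) := by
  classical
  by_contra hcon
  push Not at hcon
  apply hb
  refine ⟨fun T => if T = ∅ then monomial s 1 else 0, ?_, ?_, ?_⟩
  · intro T
    by_cases hT : T = ∅
    · subst hT
      simp only [if_true, Finset.card_empty]
      exact ⟨hs, fun _ => ⟨trivial, s.degree, rfl, isHomogeneous_monomial _ rfl⟩⟩
    · simp [hT]
  · funext T
    unfold koszulD
    refine Finset.sum_eq_zero fun i _ => ?_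
    simp
  · rintro ⟨g, hg, hgd⟩
    have h0 := congrFun hgd ∅
    simp only [koszulD, if_true, Finset.filter_empty, Finset.card_empty, pow_zero, one_mul,
      Finset.compl_empty] at h0
    have h1 := congrArg (coeff s) h0
    rw [coeff_sum, coeff_monomial, if_pos rfl] at h1
    obtain ⟨i, _, hi⟩ : ∃ i ∈ (Finset.univ : Finset (Fin n)), coeff s (X i * g (insert i ∅)) ≠ 0 := by
      by_contra hc
      push Not at hc
      rw [Finset.sum_eq_zero hc] at h1
      exact zero_ne_one h1
    rw [coeff_X_mul'] at hi
    split_ifs at hi with hsi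
    · refine hcon i (Finsupp.mem_support_iff.mp hsi) ?_
      exact (mem_pow_iff hI k _).mp (hg _).1 _ (mem_support_iff.mpr hi)
    · exact hi rfl

theorem exists_small {I : Ideal (MvPolynomial (Fin n) K)} (hI : IsMonomialIdeal I) {k : ℕ} {r : ℕ}
    (hr : IsRegularity (I ^ k) r) {s : Fin n →₀ ℕ} (hs : P I k s) :
    ∃ t ≤ s, P I k t ∧ t.degree ≤ r := by
  induction hd : s.degree using Nat.strong_induction_on generalizing s with
  | _ d ih =>
    subst hd
    by_cases hle : s.degree ≤ r
    · exact ⟨s, le_rfl, hs, hle⟩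
    · have hb : ¬ BettiNonzero (I ^ k) 0 s.degree := not_betti hr (by push_cast; omega)
      obtain ⟨i, hi, hPi⟩ := betti_zero hI hb hs
      have hle' : Finsupp.single i 1 ≤ s := by
        rw [Finsupp.single_le_iff]; omega
      have hdeg : (s - Finsupp.single i 1).degree + 1 = s.degree := by
        conv_rhs => rw [← tsub_add_cancel_of_le hle']
        rw [map_add, Finsupp.degree_single]
      obtain ⟨t, ht, hPt, hdt⟩ := ih _ (by omega) hPi rfl
      exact ⟨t, ht.trans tsub_le_self, hPt, hdt⟩


/-- `H_1`: if the first Koszul homology of `I ^ k` vanishes in degree `|α|` then one cannot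
separate the variables `t, w` from a variable `y` in the divisor graph of `α`. -/
theorem betti_one {I : Ideal (MvPolynomial (Fin n) K)} (hI : IsMonomialIdeal I) {k : ℕ}
    {α : Fin n →₀ ℕ} (hb : ¬ BettiNonzero (I ^ k) 1 α.degree) {t w y : Fin n}
    (ht : α t ≠ 0) (hw : α w ≠ 0) (hy : α y ≠ 0) (hty : t ≠ y) (hwy : w ≠ y)
    (hPt : P I k (α - Finsupp.single t 1)) (hPy : P I k (α - Finsupp.single y 1))
    (hsep : ∀ j, α j ≠ 0 → j ≠ t → j ≠ w →
      ¬ P I k (α - Finsupp.single t 1 - Finsupp.single j 1) ∧
      ¬ P I k (α - Finsupp.single w 1 - Finsupp.single j 1)) : False := by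
  classical
  apply hb
  have degsub : ∀ i, α i ≠ 0 → (α - Finsupp.single i 1).degree + 1 = α.degree := by
    intro i hi
    have hle' : Finsupp.single i 1 ≤ α := by
      rw [Finsupp.single_le_iff]; omega
    conv_rhs => rw [← tsub_add_cancel_of_le hle']
    rw [map_add, Finsupp.degree_single]
  have addsub : ∀ i, α i ≠ 0 → Finsupp.single i 1 + (α - Finsupp.single i 1) = α := by
    intro i hi
    have hle' : Finsupp.single i 1 ≤ α := by
      rw [Finsupp.single_le_iff]; omega
    exact add_tsub_cancel_of_le hle'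
  have hts : ({t} : Finset (Fin n)) ≠ {y} := by
    simpa using hty
  have hws : ({w} : Finset (Fin n)) ≠ {y} := by
    simpa using hwy
  set f : Finset (Fin n) → MvPolynomial (Fin n) K := fun T =>
    if T = {t} then monomial (α - Finsupp.single t 1) 1 else
      if T = {y} then - monomial (α - Finsupp.single y 1) 1 else 0 with hf
  have hft : f {t} = monomial (α - Finsupp.single t 1) 1 := by simp [hf]
  have hfy : f {y} = - monomial (α - Finsupp.single y 1) 1 := by
    simp only [hf]; rw [if_neg hts.symm]; simp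
  have hf0 : ∀ T, T ≠ {t} → T ≠ {y} → f T = 0 := by
    intro T h1 h2
    simp only [hf]; rw [if_neg h1, if_neg h2]
  refine ⟨f, ?_, ?_, ?_⟩
  · intro T
    by_cases hT : T = {t}
    · subst hT
      rw [hft]
      exact ⟨hPt, fun _ => ⟨Finset.card_singleton _, _, degsub t ht, isHomogeneous_monomial _ rfl⟩⟩
    · by_cases hT' : T = {y}
      · subst hT'
        rw [hfy]
        exact ⟨neg_mem hPy, fun _ => ⟨Finset.card_singleton _, _, degsub y hy,
          (isHomogeneous_monomial _ rfl).neg⟩⟩
      · rw [hf0 T hT hT']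
        exact ⟨zero_mem _, fun h => absurd rfl h⟩
  · funext T
    unfold koszulD
    by_cases hT : T = ∅
    · subst hT
      simp only [Finset.filter_empty, Finset.card_empty, pow_zero, one_mul, Finset.compl_empty,
        Pi.zero_apply]
      rw [← Finset.sum_subset (Finset.subset_univ ({t, y} : Finset (Fin n)))]
      · rw [Finset.sum_pair hty]
        have e1 : insert t (∅ : Finset (Fin n)) = {t} := by simp
        have e2 : insert y (∅ : Finset (Fin n)) = {y} := by simp
        rw [e1, e2, hft, hfy, mul_neg, X, X, monomial_mul, monomial_mul, addsub t ht, addsub y hy]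
        simp
      · intro i _ hi
        simp only [Finset.mem_insert, Finset.mem_singleton, not_or] at hi
        rw [hf0, mul_zero]
        · simpa using hi.1
        · simpa using hi.2
    · refine Finset.sum_eq_zero fun i hi => ?_
      rw [Finset.mem_compl] at hi
      have hcard : (insert i T).card ≠ 1 := by
        rw [Finset.card_insert_of_notMem hi]
        have := Finset.card_pos.mpr (Finset.nonempty_iff_ne_empty.mpr hT)
        omega
      rw [hf0, mul_zero]
      · rintro h; rw [h] at hcard; simp at hcard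
      · rintro h; rw [h] at hcard; simp at hcard
  · rintro ⟨g, hg, hgd⟩
    have term : ∀ i j : Fin n, coeff (α - Finsupp.single i 1)
        ((-1) ^ (({i} : Finset (Fin n)).filter (fun j' => j' < j)).card * X j *
          g (insert j {i})) =
        if (α - Finsupp.single i 1 : Fin n →₀ ℕ) j ≠ 0 then
          (-1) ^ (({i} : Finset (Fin n)).filter (fun j' => j' < j)).card *
            coeff (α - Finsupp.single i 1 - Finsupp.single j 1) (g (insert j {i})) else 0 := by
      intro i j
      have e : ((-1 : MvPolynomial (Fin n) K) ^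
          (({i} : Finset (Fin n)).filter (fun j' => j' < j)).card) =
          C ((-1) ^ (({i} : Finset (Fin n)).filter (fun j' => j' < j)).card) := by
        simp [map_pow]
      rw [e, mul_assoc, coeff_C_mul, coeff_X_mul']
      simp only [Finsupp.mem_support_iff]
      split_ifs <;> simp
    have hzero : ∀ i j : Fin n, (i = t ∨ i = w) → j ≠ t → j ≠ w →
        coeff (α - Finsupp.single i 1)
        ((-1) ^ (({i} : Finset (Fin n)).filter (fun j' => j' < j)).card * X j *
          g (insert j {i})) = 0 := by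
      intro i j hi hjt hjw
      rw [term]
      split_ifs with h
      · have hj : α j ≠ 0 := by
          intro h0
          apply h
          simp [h0]
        have hnot : ¬ P I k (α - Finsupp.single i 1 - Finsupp.single j 1) := by
          rcases hi with rfl | rfl
          · exact (hsep j hj hjt hjw).1
          · exact (hsep j hj hjt hjw).2
        have : coeff (α - Finsupp.single i 1 - Finsupp.single j 1) (g (insert j {i})) = 0 := by
          by_contra hne
          exact hnot ((mem_pow_iff hI k _).mp (hg _).1 _ (mem_support_iff.mpr hne))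
        rw [this, mul_zero]
      · rfl
    have ht1 : coeff (α - Finsupp.single t 1) (koszulD g {t}) = 1 := by
      rw [hgd, hft, coeff_monomial, if_pos rfl]
    by_cases htw : t = w
    · subst htw
      have : coeff (α - Finsupp.single t 1) (koszulD g {t}) = 0 := by
        unfold koszulD
        rw [coeff_sum]
        refine Finset.sum_eq_zero fun j hj => ?_
        rw [Finset.mem_compl, Finset.mem_singleton] at hj
        exact hzero t j (Or.inl rfl) hj hj
      rw [this] at ht1
      exact zero_ne_one ht1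
    · have hwt : w ≠ t := fun h => htw h.symm
      have hw1 : coeff (α - Finsupp.single w 1) (koszulD g {w}) = 0 := by
        rw [hgd, hf0, coeff_zero]
        · simpa using hwt
        · exact hws
      have et : coeff (α - Finsupp.single t 1) (koszulD g {t}) =
          (-1) ^ (({t} : Finset (Fin n)).filter (fun j' => j' < w)).card *
            coeff (α - Finsupp.single t 1 - Finsupp.single w 1) (g (insert w {t})) := by
        unfold koszulD
        rw [coeff_sum, Finset.sum_eq_single w]
        · rw [term, if_pos]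
          simpa [htw, hwt] using hw
        · intro j hj hjw
          rw [Finset.mem_compl, Finset.mem_singleton] at hj
          exact hzero t j (Or.inl rfl) hj hjw
        · intro h
          exact absurd (by simpa using hwt) h
      have ew : coeff (α - Finsupp.single w 1) (koszulD g {w}) =
          (-1) ^ (({w} : Finset (Fin n)).filter (fun j' => j' < t)).card *
            coeff (α - Finsupp.single w 1 - Finsupp.single t 1) (g (insert t {w})) := by
        unfold koszulD
        rw [coeff_sum, Finset.sum_eq_single t]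
        · rw [term, if_pos]
          simpa [htw, hwt] using ht
        · intro j hj hjt
          rw [Finset.mem_compl, Finset.mem_singleton] at hj
          exact hzero w j (Or.inr rfl) hjt hj
        · intro h
          exact absurd (by simpa using htw) h
      have hset : (insert t {w} : Finset (Fin n)) = insert w {t} := Finset.pair_comm t w
      have hsub : α - Finsupp.single w 1 - Finsupp.single t 1 =
          α - Finsupp.single t 1 - Finsupp.single w 1 := by
        rw [tsub_tsub, tsub_tsub, add_comm]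
      rw [ew, hset, hsub] at hw1
      have : coeff (α - Finsupp.single t 1 - Finsupp.single w 1) (g (insert w {t})) = 0 := by
        rcases mul_eq_zero.mp hw1 with h | h
        · exact absurd h (pow_ne_zero _ (by simp))
        · exact h
      rw [et, this, mul_zero] at ht1
      exact zero_ne_one ht1

/-! ### Variable sets and primes -/

/-- membership in the prime ideal generated by the variables in `T` -/
theorem isPrime_of_support (T : Set (Fin n)) (J : Ideal (MvPolynomial (Fin n) K))
    (hJ : ∀ g, g ∈ J ↔ ∀ s ∈ g.support, ∃ i ∈ T, s i ≠ 0) : J.IsPrime := by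
  classical
  let φ : MvPolynomial (Fin n) K →ₐ[K] MvPolynomial (Fin n) K :=
    aeval (fun i => if i ∈ T then 0 else X i)
  have hmon : ∀ (s : Fin n →₀ ℕ) (c : K), φ (monomial s c) =
      if ∃ i ∈ T, s i ≠ 0 then 0 else monomial s c := by
    intro s c
    simp only [φ, aeval_monomial]
    split_ifs with h
    · obtain ⟨i, hiT, hi⟩ := h
      rw [Finsupp.prod, Finset.prod_eq_zero (Finsupp.mem_support_iff.mpr hi), mul_zero]
      rw [if_pos hiT, zero_pow hi]
    · push Not at h
      rw [monomial_eq]
      congr 1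
      refine Finsupp.prod_congr fun i hi => ?_
      rw [if_neg]
      intro hiT
      exact (Finsupp.mem_support_iff.mp hi) (h i hiT)
  have hcoeff : ∀ (g : MvPolynomial (Fin n) K) (s : Fin n →₀ ℕ), coeff s (φ g) =
      if ∃ i ∈ T, s i ≠ 0 then 0 else coeff s g := by
    intro g
    induction g using MvPolynomial.induction_on' with
    | monomial u a =>
      intro s
      rw [hmon]
      by_cases hus : u = s
      · subst hus
        split_ifs <;> simp
      · split_ifs <;> simp [coeff_monomial, hus]
    | add p q hp hq =>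
      intro s
      rw [map_add, coeff_add, hp, hq, coeff_add]
      split_ifs <;> simp
  have hker : J = RingHom.ker φ := by
    ext g
    rw [hJ, RingHom.mem_ker]
    constructor
    · intro h
      ext s
      rw [hcoeff, coeff_zero]
      split_ifs with hs
      · rfl
      · by_contra hne
        exact hs (h s (mem_support_iff.mpr hne))
    · intro h s hs
      by_contra hcon
      have := hcoeff g s
      rw [h, coeff_zero, if_neg hcon] at this
      exact (mem_support_iff.mp hs) this.symm
  rw [hker]
  exact RingHom.ker_isPrime _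

theorem P_erase {I : Ideal (MvPolynomial (Fin n) K)} (hI : IsMonomialIdeal I) (x : Fin n)
    {k : ℕ} {s : Fin n →₀ ℕ} (hs : P I k s) : P I (k - s x) (s.erase x) := by
  induction k generalizing s with
  | zero => rw [Nat.zero_sub]; exact P_zero _ _
  | succ k ih =>
    obtain ⟨t, r, rfl, ht, hr⟩ := P_succ hI hs
    have hr' := ih hr
    rw [Finsupp.erase_add, Finsupp.add_apply]
    by_cases h : t x = 0
    · have e : t.erase x = t := by
        ext i
        by_cases hi : i = x
        · subst hi; simp [h]
        · simp [Finsupp.erase_ne hi]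
      rw [e]
      exact P_anti (P_add ht hr') (by omega)
    · exact P_anti (P_mono hr' (by simp)) (by omega)

/-- `s` involves no variable lying in `I` -/
def Ysup (I : Ideal (MvPolynomial (Fin n) K)) (s : Fin n →₀ ℕ) : Prop :=
  ∀ i, s i ≠ 0 → ¬ P I 1 (Finsupp.single i 1)

theorem Ysup.mono {I : Ideal (MvPolynomial (Fin n) K)} {s t : Fin n →₀ ℕ} (hs : Ysup I s)
    (h : t ≤ s) : Ysup I t := fun i hi => hs i (by
      have := h i
      omega)

theorem colon_prime {I : Ideal (MvPolynomial (Fin n) K)} (hI : IsMonomialIdeal I) {x : Fin n}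
    (hx : P I 1 (Finsupp.single x 1)) {k m : ℕ} (hm : 1 ≤ m) (hmk : m ≤ k) {u : Fin n →₀ ℕ}
    (hu : Ysup I u) (hPu : P I (m - 1) u) (W : Set (Fin n))
    (hW1 : ∀ w ∈ W, P I m (u + Finsupp.single w 1))
    (hW2 : ∀ s, Ysup I s → (∀ w ∈ W, s w = 0) → ¬ P I m (u + s)) :
    ((I ^ k).colon {monomial (Finsupp.single x (k - m) + u) (1 : K)}).IsPrime := by
  classical
  refine isPrime_of_support ({i | P I 1 (Finsupp.single i 1)} ∪ W) _ fun g => ?_
  have hux : u x = 0 := by
    by_contra h
    exact hu x h hx
  have hxk : P I (k - m) (Finsupp.single x (k - m)) := by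
    have := P_nsmul hx (k - m)
    rwa [Finsupp.smul_single, smul_eq_mul, mul_one] at this
  rw [Submodule.mem_colon_singleton, smul_eq_mul, mem_pow_iff hI]
  constructor
  · intro h s hs
    by_contra hcon
    push Not at hcon
    have hYs : Ysup I s := by
      intro i hi hPi
      exact hi (hcon i (Or.inl hPi))
    have hWs : ∀ w ∈ W, s w = 0 := fun w hw => hcon w (Or.inr hw)
    have hsx : s x = 0 := hcon x (Or.inl hx)
    refine hW2 s hYs hWs ?_
    have hmem : s + (Finsupp.single x (k - m) + u) ∈
        (g * monomial (Finsupp.single x (k - m) + u) (1 : K)).support := by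
      rw [mem_support_iff, coeff_mul_monomial, mul_one]
      exact mem_support_iff.mp hs
    have hP := P_erase hI x (h _ hmem)
    have e1 : (s + (Finsupp.single x (k - m) + u)) x = k - m := by
      simp [hsx, hux]
    have e2 : (s + (Finsupp.single x (k - m) + u)).erase x = u + s := by
      ext i
      by_cases hi : i = x
      · subst hi; simp [hsx, hux]
      · simp [Finsupp.erase_ne hi, Ne.symm hi, add_comm]
    rw [e1, e2] at hP
    exact P_anti hP (by omega)
  · intro h s hs
    rw [mem_support_iff] at hs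
    have hle : Finsupp.single x (k - m) + u ≤ s := by
      by_contra hcon
      rw [coeff_mul_monomial', if_neg hcon] at hs
      exact hs rfl
    rw [coeff_mul_monomial', if_pos hle, mul_one] at hs
    obtain ⟨i, hi, hsi⟩ := h _ (mem_support_iff.mpr hs)
    have hle2 : Finsupp.single i 1 + (Finsupp.single x (k - m) + u) ≤ s := by
      have h1 : Finsupp.single i 1 ≤ s - (Finsupp.single x (k - m) + u) := by
        rw [Finsupp.single_le_iff]; omega
      calc _ ≤ (s - (Finsupp.single x (k - m) + u)) + (Finsupp.single x (k - m) + u) := by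
            gcongr
        _ = s := tsub_add_cancel_of_le hle
    refine P_mono ?_ hle2
    rcases hi with hi | hi
    · have hi' : P I 1 (Finsupp.single i 1) := hi
      have := P_add hi' (P_add hxk hPu)
      exact P_anti this (by omega)
    · have h2 := P_add hxk (hW1 i hi)
      have e : Finsupp.single x (k - m) + (u + Finsupp.single i 1) =
          Finsupp.single i 1 + (Finsupp.single x (k - m) + u) := by
        rw [← add_assoc, add_comm]
      rw [e] at h2
      exact P_anti h2 (by omega)

/-! ### Degrees -/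

theorem exists_single_add {s : Fin n →₀ ℕ} {d : ℕ} (hs : s.degree = d + 1) :
    ∃ p r, s = Finsupp.single p 1 + r ∧ r.degree = d := by
  have h0 : s ≠ 0 := by
    rintro rfl
    simp at hs
  obtain ⟨p, hp⟩ := Finsupp.ne_iff.mp h0
  rw [Finsupp.zero_apply] at hp
  have hle : Finsupp.single p 1 ≤ s := by
    rw [Finsupp.single_le_iff]; omega
  refine ⟨p, s - Finsupp.single p 1, (add_tsub_cancel_of_le hle).symm, ?_⟩
  have : (Finsupp.single p 1 + (s - Finsupp.single p 1)).degree = d + 1 := by
    rw [add_tsub_cancel_of_le hle, hs]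
  rw [map_add, Finsupp.degree_single] at this
  omega

theorem degree_one {s : Fin n →₀ ℕ} (hs : s.degree = 1) : ∃ p, s = Finsupp.single p 1 := by
  obtain ⟨p, r, rfl, hr⟩ := exists_single_add hs
  rw [Finsupp.degree_eq_zero_iff] at hr
  exact ⟨p, by rw [hr, add_zero]⟩

theorem degree_two {s : Fin n →₀ ℕ} (hs : s.degree = 2) :
    ∃ p q, s = Finsupp.single p 1 + Finsupp.single q 1 := by
  obtain ⟨p, r, rfl, hr⟩ := exists_single_add hs
  obtain ⟨q, rfl⟩ := degree_one hr
  exact ⟨p, q, rfl⟩

section

variable {I : Ideal (MvPolynomial (Fin n) K)}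

theorem two_le (hI1 : I ≠ ⊤) {s : Fin n →₀ ℕ} (hs : Ysup I s) (hP : P I 1 s) : 2 ≤ s.degree := by
  by_contra hcon
  have h01 : s.degree = 0 ∨ s.degree = 1 := by omega
  rcases h01 with h | h
  · rw [Finsupp.degree_eq_zero_iff] at h
    subst h
    apply hI1
    rw [Ideal.eq_top_iff_one]
    simpa [P] using hP
  · obtain ⟨p, rfl⟩ := degree_one h
    exact hs p (by simp) hP

theorem two_mul_le (hI : IsMonomialIdeal I) (hI1 : I ≠ ⊤) {k : ℕ} {s : Fin n →₀ ℕ}
    (hs : Ysup I s) (hP : P I k s) : 2 * k ≤ s.degree := by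
  induction k generalizing s with
  | zero => simp
  | succ k ih =>
    obtain ⟨t, r, rfl, ht, hr⟩ := P_succ hI hP
    have h1 := two_le hI1 (hs.mono (by simp)) ht
    have h2 := ih (hs.mono (by simp)) hr
    rw [map_add]
    omega

/-- the quadratic part of `I` -/
def E (I : Ideal (MvPolynomial (Fin n) K)) (p q : Fin n) : Prop :=
  P I 1 (Finsupp.single p 1 + Finsupp.single q 1)

theorem E.symm {p q : Fin n} (h : E I p q) : E I q p := by
  unfold E at *
  rwa [add_comm]

theorem split_exact (hI : IsMonomialIdeal I) (hI1 : I ≠ ⊤) {k : ℕ} {s : Fin n →₀ ℕ}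
    (hs : Ysup I s) (hP : P I (k + 1) s) (hd : s.degree = 2 * (k + 1)) :
    ∃ p q r, s = Finsupp.single p 1 + Finsupp.single q 1 + r ∧ E I p q ∧ P I k r ∧
      r.degree = 2 * k := by
  obtain ⟨t, r, rfl, ht, hr⟩ := P_succ hI hP
  have h1 := two_le hI1 (hs.mono (by simp)) ht
  have h2 := two_mul_le hI hI1 (hs.mono (by simp)) hr
  rw [map_add] at hd
  obtain ⟨p, q, rfl⟩ := degree_two (s := t) (by omega)
  exact ⟨p, q, r, rfl, ht, hr, by omega⟩

theorem parity (hI : IsMonomialIdeal I) (hI1 : I ≠ ⊤) {A B : Finset (Fin n)}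
    (hAB : ∀ p ∈ A, ∀ q ∈ B, ¬ E I p q) (hdisj : Disjoint A B) {k : ℕ} {s : Fin n →₀ ℕ}
    (hs : Ysup I s) (hP : P I k s) (hd : s.degree = 2 * k)
    (hsup : ∀ i, s i ≠ 0 → i ∈ A ∨ i ∈ B) : Even (∑ i ∈ B, s i) := by
  classical
  induction k generalizing s with
  | zero =>
    rw [mul_zero, Finsupp.degree_eq_zero_iff] at hd
    subst hd
    simp
  | succ k ih =>
    obtain ⟨p, q, r, rfl, hpq, hr, hrd⟩ := split_exact hI hI1 hs hP hd
    have hr' := ih (hs.mono (by simp)) hr hrd (fun i hi => hsup i (by simp; omega))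
    have hp := hsup p (by simp)
    have hq := hsup q (by simp)
    simp only [Finsupp.add_apply, Finset.sum_add_distrib, Finsupp.single_apply,
      Finset.sum_ite_eq]
    refine Even.add ?_ hr'
    rcases hp with hp | hp <;> rcases hq with hq | hq
    · rw [if_neg (Finset.disjoint_left.mp hdisj hp), if_neg (Finset.disjoint_left.mp hdisj hq)]
      simp
    · exact absurd hpq (hAB p hp q hq)
    · exact absurd hpq.symm (hAB q hq p hp)
    · rw [if_pos hp, if_pos hq]
      exact ⟨1, rfl⟩

theorem gap_free (hI : IsMonomialIdeal I) (hI1 : I ≠ ⊤) {k : ℕ} (hk : 1 ≤ k)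
    (hr : IsRegularity (I ^ k) ((2 * k : ℕ) : ℤ)) {y z t w : Fin n}
    (hYy : ¬ P I 1 (Finsupp.single y 1)) (hYz : ¬ P I 1 (Finsupp.single z 1))
    (hYt : ¬ P I 1 (Finsupp.single t 1)) (hYw : ¬ P I 1 (Finsupp.single w 1))
    (hyz : E I y z) (htw : E I t w) (hyt : y ≠ t) (hyw : y ≠ w) (hzt : z ≠ t) (hzw : z ≠ w) :
    E I y t ∨ E I y w ∨ E I z t ∨ E I z w := by
  classical
  by_contra hcon
  push Not at hcon
  obtain ⟨c1, c2, c3, c4⟩ := hcon
  set α : Fin n →₀ ℕ := k • (Finsupp.single y 1 + Finsupp.single z 1) +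
    (Finsupp.single t 1 + Finsupp.single w 1) with hα
  have hαd : α.degree = 2 * k + 2 := by
    rw [hα, map_add, map_nsmul, map_add, map_add]
    simp only [Finsupp.degree_single, smul_eq_mul]
    ring
  have hsup : ∀ i, α i ≠ 0 → i ∈ ({y, z} : Finset (Fin n)) ∨ i ∈ ({t, w} : Finset (Fin n)) := by
    intro i hi
    by_contra hc
    simp only [Finset.mem_insert, Finset.mem_singleton, not_or] at hc
    obtain ⟨⟨h1, h2⟩, h3, h4⟩ := hc
    apply hi
    simp [hα, Ne.symm h1, Ne.symm h2, Ne.symm h3, Ne.symm h4]
  have hYα : Ysup I α := by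
    intro i hi
    rcases hsup i hi with h | h <;>
    · simp only [Finset.mem_insert, Finset.mem_singleton] at h
      rcases h with rfl | rfl <;> assumption
  have hsumα : ∑ i ∈ ({t, w} : Finset (Fin n)), α i = 2 := by
    rw [hα]
    simp only [Finsupp.add_apply, Finset.sum_add_distrib, Finsupp.smul_apply,
      Finsupp.single_apply, smul_eq_mul, ← Finset.mul_sum, Finset.sum_ite_eq]
    simp [hyt, hyw, hzt, hzw]
  have hα1 : α t ≠ 0 := by simp [hα]
  have hα2 : α w ≠ 0 := by simp [hα]
  have hα3 : α y ≠ 0 := by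
    simp [hα]; omega
  have hb : ¬ BettiNonzero (I ^ k) 1 α.degree := not_betti hr (by rw [hαd]; push_cast; omega)
  have addsub : ∀ i, α i ≠ 0 → Finsupp.single i 1 + (α - Finsupp.single i 1) = α := by
    intro i hi
    exact add_tsub_cancel_of_le (by rw [Finsupp.single_le_iff]; omega)
  -- the two sides are not connected
  have hside : ∀ i j, i ∈ ({t, w} : Finset (Fin n)) → α i ≠ 0 → α j ≠ 0 → j ≠ t → j ≠ w →
      ¬ P I k (α - Finsupp.single i 1 - Finsupp.single j 1) := by
    intro i j hi hαi hαj hjt hjw hP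
    have hjB : j ∉ ({t, w} : Finset (Fin n)) := by simp [hjt, hjw]
    have hij : i ≠ j := fun h => hjB (h ▸ hi)
    set β := α - Finsupp.single i 1 - Finsupp.single j 1 with hβ
    have hβα : Finsupp.single i 1 + (Finsupp.single j 1 + β) = α := by
      rw [hβ, add_tsub_cancel_of_le, addsub i hαi]
      rw [Finsupp.single_le_iff]
      simp [hij]; omega
    have hβle : β ≤ α := by rw [hβ]; exact tsub_le_self.trans tsub_le_self
    have hβd : β.degree = 2 * k := by
      have := congrArg Finsupp.degree hβα
      rw [map_add, map_add, Finsupp.degree_single, Finsupp.degree_single, hαd] at this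
      omega
    have hpar := parity hI hI1 (A := {y, z}) (B := {t, w}) (by
      intro p hp q hq
      simp only [Finset.mem_insert, Finset.mem_singleton] at hp hq
      rcases hp with rfl | rfl <;> rcases hq with rfl | rfl <;> assumption) (by
      rw [Finset.disjoint_left]
      intro p hp hq
      simp only [Finset.mem_insert, Finset.mem_singleton] at hp hq
      rcases hp with rfl | rfl <;> rcases hq with rfl | rfl <;> contradiction)
      (hYα.mono hβle) hP hβd (fun i' hi' => hsup i' (by have := hβle i'; omega))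
    have hs : ∑ i' ∈ ({t, w} : Finset (Fin n)), α i' =
        1 + ∑ i' ∈ ({t, w} : Finset (Fin n)), β i' := by
      rw [← hβα]
      simp only [Finsupp.add_apply, Finset.sum_add_distrib, Finsupp.single_apply,
        Finset.sum_ite_eq]
      rw [if_pos hi, if_neg hjB, zero_add]
    rw [hsumα] at hs
    obtain ⟨c, hc⟩ := hpar
    omega
  refine betti_one hI hb hα1 hα2 hα3 (Ne.symm hyt) (Ne.symm hyw) ?_ ?_ ?_
  · refine P_mono (P_nsmul hyz k) ?_
    have : α = Finsupp.single t 1 + (k • (Finsupp.single y 1 + Finsupp.single z 1) +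
      Finsupp.single w 1) := by rw [hα]; abel
    rw [this, add_tsub_cancel_left]
    simp
  · have h1 : P I ((k - 1) + 1) ((k - 1) • (Finsupp.single y 1 + Finsupp.single z 1) +
        (Finsupp.single t 1 + Finsupp.single w 1)) := P_add (P_nsmul hyz (k - 1)) htw
    have hk' : k - 1 + 1 = k := by omega
    rw [hk'] at h1
    refine P_mono h1 ?_
    have : α = Finsupp.single y 1 + ((k - 1) • (Finsupp.single y 1 + Finsupp.single z 1) +
      (Finsupp.single t 1 + Finsupp.single w 1) + Finsupp.single z 1) := by
      rw [hα]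
      conv_lhs => rw [← hk', succ_nsmul]
      abel
    rw [this, add_tsub_cancel_left]
    simp
  · intro j hj hjt hjw
    exact ⟨hside t j (by simp) hα1 hj hjt hjw, hside w j (by simp) hα2 hj hjt hjw⟩

theorem exists_exact (hI : IsMonomialIdeal I) (hI1 : I ≠ ⊤) {k : ℕ}
    (hr : IsRegularity (I ^ k) ((2 * k : ℕ) : ℤ)) {h : Fin n →₀ ℕ} (hY : Ysup I h)
    (hP : P I 1 h) : ∃ t ≤ k • h, P I k t ∧ t.degree = 2 * k := by
  obtain ⟨t, ht, hPt, hd⟩ := exists_small hI hr (P_nsmul hP k)
  refine ⟨t, ht, hPt, le_antisymm hd (two_mul_le hI hI1 ?_ hPt)⟩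
  refine Ysup.mono (s := k • h) ?_ ht
  intro i hi
  refine hY i ?_
  intro h0
  apply hi
  simp [h0]

/-- In the absence of squares, each relevant monomial of `I` is divisible by an edge. -/
theorem exists_edge (hI : IsMonomialIdeal I) (hI1 : I ≠ ⊤) {k : ℕ} (hk : 1 ≤ k)
    (hr : IsRegularity (I ^ k) ((2 * k : ℕ) : ℤ))
    (hloop : ∀ y, ¬ P I 1 (Finsupp.single y 1) → ¬ E I y y) {h : Fin n →₀ ℕ} (hY : Ysup I h)
    (hP : P I 1 h) : ∃ p q, p ≠ q ∧ E I p q ∧ h p ≠ 0 ∧ h q ≠ 0 ∧
      Finsupp.single p 1 + Finsupp.single q 1 ≤ h := by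
  obtain ⟨t, ht, hPt, hd⟩ := exists_exact hI hI1 hr hY hP
  obtain ⟨k, rfl⟩ : ∃ k', k = k' + 1 := ⟨k - 1, by omega⟩
  have hYk : Ysup I ((k + 1) • h) := by
    intro i hi
    refine hY i ?_
    intro h0
    apply hi
    simp [h0]
  obtain ⟨p, q, r, rfl, hpq, _, _⟩ := split_exact hI hI1 (hYk.mono ht) hPt hd
  have hp : h p ≠ 0 := by
    intro h0
    have := ht p
    simp [h0] at this
  have hq : h q ≠ 0 := by
    intro h0
    have := ht q
    simp [h0] at this
  have hne : p ≠ q := by
    rintro rfl
    exact hloop p (hY p hp) hpq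
  refine ⟨p, q, hne, hpq, hp, hq, ?_⟩
  intro i
  simp only [Finsupp.add_apply, Finsupp.single_apply]
  by_cases h1 : p = i
  · subst h1
    rw [if_pos rfl, if_neg (Ne.symm hne)]
    omega
  · by_cases h2 : q = i
    · subst h2
      rw [if_pos rfl, if_neg hne]
      omega
    · rw [if_neg h1, if_neg h2]
      omega

/-- the conclusion of the combinatorial analysis: a good monomial `u` -/
def Good (I : Ideal (MvPolynomial (Fin n) K)) : Prop :=
  ∃ (m : ℕ) (u : Fin n →₀ ℕ) (W : Set (Fin n)), 1 ≤ m ∧ m ≤ 2 ∧ u.degree ≤ m + 1 ∧ Ysup I u ∧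
    P I (m - 1) u ∧ (∀ w ∈ W, P I m (u + Finsupp.single w 1)) ∧
    (∀ s, Ysup I s → (∀ w ∈ W, s w = 0) → ¬ P I m (u + s))

theorem good_loop (hI : IsMonomialIdeal I) (hI1 : I ≠ ⊤) {k : ℕ} (hk : 1 ≤ k)
    (hr : IsRegularity (I ^ k) ((2 * k : ℕ) : ℤ)) {y : Fin n}
    (hy : ¬ P I 1 (Finsupp.single y 1)) (hyy : E I y y) : Good I := by
  classical
  refine ⟨1, Finsupp.single y 1, {q | ¬ P I 1 (Finsupp.single q 1) ∧ E I y q}, le_rfl,
    by omega, by rw [Finsupp.degree_single]; omega, ?_, P_zero _ _, ?_, ?_⟩
  · intro i hi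
    have : i = y := by
      by_contra h
      exact hi (by simp [Ne.symm h])
    rwa [this]
  · intro w hw
    exact hw.2
  · intro s hs hW hP
    set h := Finsupp.single y 1 + s with hh
    have hYh : Ysup I h := by
      intro i hi
      by_cases h1 : i = y
      · rwa [h1]
      · refine hs i ?_
        intro h0
        apply hi
        simp [hh, h0, Ne.symm h1]
    have hsy : s y = 0 := hW y ⟨hy, hyy⟩
    have hhne : ∀ i, i ≠ y → h i = s i := by
      intro i hi
      simp [hh, Ne.symm hi]
    have hYk : Ysup I (k • h) := by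
      intro i hi
      refine hYh i ?_
      intro h0
      apply hi
      simp [h0]
    have claim : ∀ (m : ℕ) (t : Fin n →₀ ℕ), t ≤ k • h → P I m t → t.degree = 2 * m →
        t y = 2 * m := by
      intro m
      induction m with
      | zero =>
        intro t _ _ hd
        rw [mul_zero, Finsupp.degree_eq_zero_iff] at hd
        subst hd
        simp
      | succ m ih =>
        intro t ht hPt hd
        obtain ⟨p, q, r, rfl, hpq, hPr, hrd⟩ := split_exact hI hI1 (hYk.mono ht) hPt hd
        have hp : h p ≠ 0 := by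
          intro h0
          have := ht p
          simp [h0] at this
        have hq : h q ≠ 0 := by
          intro h0
          have := ht q
          simp [h0] at this
        have hYp := hYh p hp
        have hYq := hYh q hq
        have notW : ∀ i, ¬ P I 1 (Finsupp.single i 1) → h i ≠ 0 → i ≠ y → ¬ E I y i := by
          intro i hYi hi hne hE
          rw [hhne i hne] at hi
          exact hi (hW i ⟨hYi, hE⟩)
        have hpy : p = y := by
          by_contra hpy
          by_cases hqy : q = y
          · subst hqy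
            exact notW p hYp hp hpy hpq.symm
          · rcases gap_free hI hI1 hk hr hy hy hYp hYq hyy hpq (Ne.symm hpy) (Ne.symm hqy)
              (Ne.symm hpy) (Ne.symm hqy) with h1 | h1 | h1 | h1
            · exact notW p hYp hp hpy h1
            · exact notW q hYq hq hqy h1
            · exact notW p hYp hp hpy h1
            · exact notW q hYq hq hqy h1
        have hqy : q = y := by
          by_contra hqy
          subst hpy
          exact notW q hYq hq hqy hpq
        subst hpy
        subst hqy
        have hr' : r ≤ k • h := le_trans (by simp) ht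
        have := ih r hr' hPr hrd
        simp only [Finsupp.add_apply, Finsupp.single_eq_same]
        omega
    obtain ⟨t, ht, hPt, hd⟩ := exists_exact hI hI1 hr hYh hP
    have h1 := claim k t ht hPt hd
    have h2 := ht y
    rw [h1] at h2
    simp [hh, hsy] at h2
    omega

theorem good_triangle (hI : IsMonomialIdeal I) (hI1 : I ≠ ⊤) {k : ℕ} (hk : 1 ≤ k)
    (hr : IsRegularity (I ^ k) ((2 * k : ℕ) : ℤ))
    (hloop : ∀ y, ¬ P I 1 (Finsupp.single y 1) → ¬ E I y y) {a b c : Fin n}
    (ha : ¬ P I 1 (Finsupp.single a 1)) (hb : ¬ P I 1 (Finsupp.single b 1))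
    (hc : ¬ P I 1 (Finsupp.single c 1))
    (hab : E I a b) (hbc : E I b c) (hac : E I a c) : Good I := by
  classical
  have nab : a ≠ b := by rintro rfl; exact hloop a ha hab
  have nbc : b ≠ c := by rintro rfl; exact hloop b hb hbc
  have nac : a ≠ c := by rintro rfl; exact hloop a ha hac
  set u : Fin n →₀ ℕ := Finsupp.single a 1 + Finsupp.single b 1 + Finsupp.single c 1 with hu
  refine ⟨2, u, {w | ¬ P I 1 (Finsupp.single w 1) ∧ (E I a w ∨ E I b w ∨ E I c w)}, by omega,
    le_rfl, ?_, ?_, ?_, ?_, ?_⟩
  · rw [hu, map_add, map_add]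
    simp only [Finsupp.degree_single]
    omega
  · intro i hi
    by_cases h1 : i = a
    · rwa [h1]
    by_cases h2 : i = b
    · rwa [h2]
    by_cases h3 : i = c
    · rwa [h3]
    exact absurd (by simp [hu, Ne.symm h1, Ne.symm h2, Ne.symm h3]) hi
  · have : P I 1 u := P_mono hab (by rw [hu]; simp)
    simpa using this
  · rintro w ⟨_, hw | hw | hw⟩
    · have := P_add hw hbc
      refine P_mono this ?_
      rw [hu]
      apply le_of_eq
      abel
    · have := P_add hw hac
      refine P_mono this ?_
      rw [hu]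
      apply le_of_eq
      abel
    · have := P_add hw hab
      refine P_mono this ?_
      rw [hu]
      apply le_of_eq
      abel
  · intro s hs hW hP
    have hsa : s a = 0 := hW a ⟨ha, Or.inr (Or.inl hab.symm)⟩
    have hsb : s b = 0 := hW b ⟨hb, Or.inl hab⟩
    have hsc : s c = 0 := hW c ⟨hc, Or.inl hac⟩
    have hYus : Ysup I (u + s) := by
      intro i hi
      by_cases h1 : i = a
      · rwa [h1]
      by_cases h2 : i = b
      · rwa [h2]
      by_cases h3 : i = c
      · rwa [h3]
      refine hs i ?_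
      intro h0
      exact hi (by simp [hu, h0, Ne.symm h1, Ne.symm h2, Ne.symm h3])
    set B : Finset (Fin n) := {a, b, c} with hB
    have hout : ∀ i, i ∉ B → (u + s) i ≠ 0 → s i ≠ 0 := by
      intro i hi h1 h0
      simp only [hB, Finset.mem_insert, Finset.mem_singleton, not_or] at hi
      exact h1 (by
        simp [hu, h0, Ne.symm hi.1, Ne.symm hi.2.1, Ne.symm hi.2.2])
    have hEB : ∀ i j, i ∈ B → E I i j → ¬ P I 1 (Finsupp.single j 1) → s j = 0 := by
      intro i j hi hE hj
      simp only [hB, Finset.mem_insert, Finset.mem_singleton] at hi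
      rcases hi with rfl | rfl | rfl
      · exact hW j ⟨hj, Or.inl hE⟩
      · exact hW j ⟨hj, Or.inr (Or.inl hE)⟩
      · exact hW j ⟨hj, Or.inr (Or.inr hE)⟩
    have haB : a ∈ B := by simp [hB]
    have hbB : b ∈ B := by simp [hB]
    have hcB : c ∈ B := by simp [hB]
    have hin : ∀ p q, E I p q → (u + s) p ≠ 0 → (u + s) q ≠ 0 → p ∈ B := by
      intro p q hE hp hq
      by_contra hpB
      have hsp := hout p hpB hp
      by_cases hqB : q ∈ B
      · exact hsp (hEB q p hqB hE.symm (hYus p hp))
      · have hsq := hout q hqB hq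
        have n1 : a ≠ p := fun h => hpB (h ▸ haB)
        have n2 : a ≠ q := fun h => hqB (h ▸ haB)
        have n3 : b ≠ p := fun h => hpB (h ▸ hbB)
        have n4 : b ≠ q := fun h => hqB (h ▸ hbB)
        rcases gap_free hI hI1 hk hr ha hb (hYus p hp) (hYus q hq) hab hE n1 n2 n3 n4
          with h1 | h1 | h1 | h1
        · exact hsp (hEB a p haB h1 (hYus p hp))
        · exact hsq (hEB a q haB h1 (hYus q hq))
        · exact hsp (hEB b p hbB h1 (hYus p hp))
        · exact hsq (hEB b q hbB h1 (hYus q hq))
    have hsum2 : ∀ t : Fin n →₀ ℕ, t ≤ u + s → P I 1 t → 2 ≤ ∑ i ∈ B, t i := by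
      intro t ht hPt
      obtain ⟨p, q, hpq, hE, hp, hq, hle⟩ := exists_edge hI hI1 hk hr hloop (hYus.mono ht) hPt
      have hp' : (u + s) p ≠ 0 := by have := ht p; omega
      have hq' : (u + s) q ≠ 0 := by have := ht q; omega
      have hpB := hin p q hE hp' hq'
      have hqB := hin q p hE.symm hq' hp'
      calc 2 = ∑ i ∈ B, (Finsupp.single p 1 + Finsupp.single q 1 : Fin n →₀ ℕ) i := by
            simp only [Finsupp.add_apply, Finset.sum_add_distrib, Finsupp.single_apply,
              Finset.sum_ite_eq]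
            rw [if_pos hpB, if_pos hqB]
        _ ≤ _ := Finset.sum_le_sum fun i _ => hle i
    obtain ⟨t, r, htr, hPt, hPr⟩ := P_succ hI hP
    have h1 := hsum2 t (by rw [htr]; simp) hPt
    have h2 := hsum2 r (by rw [htr]; simp) hPr
    have h3 : ∑ i ∈ B, (u + s) i = 3 := by
      have : ∀ i ∈ B, (u + s) i = 1 := by
        intro i hi
        simp only [hB, Finset.mem_insert, Finset.mem_singleton] at hi
        rcases hi with rfl | rfl | rfl
        · simp [hu, hsa, nab.symm, nac.symm]
        · simp [hu, hsb, nab, nbc.symm]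
        · simp [hu, hsc, nac, nbc]
      rw [Finset.sum_congr rfl this]
      have hcard : B.card = 3 := by
        rw [hB, Finset.card_insert_of_notMem, Finset.card_pair nbc]
        simp [nab, nac]
      simp [hcard]
    rw [htr] at h3
    simp only [Finsupp.add_apply, Finset.sum_add_distrib] at h3
    omega

theorem good_pentagon (hI : IsMonomialIdeal I) (hI1 : I ≠ ⊤) {k : ℕ} (hk : 1 ≤ k)
    (hr : IsRegularity (I ^ k) ((2 * k : ℕ) : ℤ))
    (hloop : ∀ y, ¬ P I 1 (Finsupp.single y 1) → ¬ E I y y)
    (htri : ∀ a b c, ¬ P I 1 (Finsupp.single a 1) → ¬ P I 1 (Finsupp.single b 1) →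
      ¬ P I 1 (Finsupp.single c 1) → E I a b → E I b c → ¬ E I a c)
    {a b c d e : Fin n}
    (ha : ¬ P I 1 (Finsupp.single a 1)) (hb : ¬ P I 1 (Finsupp.single b 1))
    (hc : ¬ P I 1 (Finsupp.single c 1)) (hd : ¬ P I 1 (Finsupp.single d 1))
    (he : ¬ P I 1 (Finsupp.single e 1))
    (hab : E I a b) (hbc : E I b c) (hcd : E I c d) (hde : E I d e) (hea : E I e a) :
    Good I := by
  classical
  have hac : ¬ E I a c := htri a b c ha hb hc hab hbc
  have hbd : ¬ E I b d := htri b c d hb hc hd hbc hcd
  have hce : ¬ E I c e := htri c d e hc hd he hcd hde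
  have hda : ¬ E I d a := htri d e a hd he ha hde hea
  have heb : ¬ E I e b := htri e a b he ha hb hea hab
  set u : Fin n →₀ ℕ := Finsupp.single a 1 + Finsupp.single c 1 with hu
  refine ⟨1, u, {w | ¬ P I 1 (Finsupp.single w 1) ∧ (E I a w ∨ E I c w)}, le_rfl,
    by omega, ?_, ?_, P_zero _ _, ?_, ?_⟩
  · rw [hu, map_add]
    simp only [Finsupp.degree_single]
    omega
  · intro i hi
    by_cases h1 : i = a
    · rwa [h1]
    by_cases h3 : i = c
    · rwa [h3]
    exact absurd (by simp [hu, Ne.symm h1, Ne.symm h3]) hi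
  · rintro w ⟨_, hw | hw⟩
    · refine P_mono hw ?_
      rw [hu]
      intro i
      simp only [Finsupp.add_apply]
      omega
    · refine P_mono hw ?_
      rw [hu]
      intro i
      simp only [Finsupp.add_apply]
      omega
  · intro s hs hW hP
    have hYus : Ysup I (u + s) := by
      intro i hi
      by_cases h1 : i = a
      · rwa [h1]
      by_cases h3 : i = c
      · rwa [h3]
      refine hs i ?_
      intro h0
      exact hi (by simp [hu, h0, Ne.symm h1, Ne.symm h3])
    obtain ⟨p, q, hpq, hE, hp, hq, -⟩ := exists_edge hI hI1 hk hr hloop hYus hP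
    have hYp := hYus p hp
    have hYq := hYus q hq
    have nota : ∀ i, (u + s) i ≠ 0 → ¬ E I a i := by
      intro i hi hEi
      have hsi : s i = 0 := hW i ⟨hYus i hi, Or.inl hEi⟩
      by_cases h1 : i = a
      · subst h1; exact hloop _ ha hEi
      by_cases h2 : i = c
      · subst h2; exact hac hEi
      exact hi (by simp [hu, hsi, Ne.symm h1, Ne.symm h2])
    have notc : ∀ i, (u + s) i ≠ 0 → ¬ E I c i := by
      intro i hi hEi
      have hsi : s i = 0 := hW i ⟨hYus i hi, Or.inr hEi⟩
      by_cases h1 : i = a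
      · subst h1; exact hac hEi.symm
      by_cases h2 : i = c
      · subst h2; exact hloop _ hc hEi
      exact hi (by simp [hu, hsi, Ne.symm h1, Ne.symm h2])
    -- a general contradiction, up to exchanging `p` and `q`
    have main : ∀ p q, E I p q → (u + s) p ≠ 0 → (u + s) q ≠ 0 → E I b p → False := by
      intro p q hE hp hq hbp
      have hYp := hYus p hp
      have hYq := hYus q hq
      have pa : a ≠ p := by rintro rfl; exact nota q hq hE
      have qa : a ≠ q := by rintro rfl; exact nota p hp hE.symm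
      have pc : c ≠ p := by rintro rfl; exact notc q hq hE
      have qc : c ≠ q := by rintro rfl; exact notc p hp hE.symm
      have pb : b ≠ p := by rintro rfl; exact nota b hp hab
      have qb : b ≠ q := by rintro rfl; exact nota b hq hab
      have pd : d ≠ p := by rintro rfl; exact notc d hp hcd
      have qd : d ≠ q := by rintro rfl; exact notc d hq hcd
      have pe : e ≠ p := by rintro rfl; exact nota e hp hea.symm
      have qe : e ≠ q := by rintro rfl; exact nota e hq hea.symm
      have hbq : ¬ E I b q := htri b p q hb hYp hYq hbp hE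
      have h1 : E I e p ∨ E I e q := by
        rcases gap_free hI hI1 hk hr ha he hYp hYq hea.symm hE pa qa pe qe with h | h | h | h
        · exact absurd h (nota p hp)
        · exact absurd h (nota q hq)
        · exact Or.inl h
        · exact Or.inr h
      have h2 : E I d p ∨ E I d q := by
        rcases gap_free hI hI1 hk hr hc hd hYp hYq hcd hE pc qc pd qd with h | h | h | h
        · exact absurd h (notc p hp)
        · exact absurd h (notc q hq)
        · exact Or.inl h
        · exact Or.inr h
      have hda' : d ≠ a := by rintro rfl; exact hac hcd.symm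
      have hdb' : d ≠ b := by rintro rfl; exact heb hde.symm
      have heb' : e ≠ b := by rintro rfl; exact hbd hde.symm
      have hec' : e ≠ c := by rintro rfl; exact hac hea.symm
      by_cases hep : E I e p
      · have hdp : ¬ E I d p := fun h => htri d e p hd he hYp hde hep h
        have hdq : E I d q := h2.resolve_left hdp
        -- edges `q d` and `a b`
        rcases gap_free hI hI1 hk hr hYq hd ha hb hdq.symm hab qa.symm qb.symm hda' hdb'
          with h | h | h | h
        · exact nota q hq h.symm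
        · exact hbq h.symm
        · exact hda h
        · exact hbd h.symm
      · have heq : E I e q := h1.resolve_left hep
        -- edges `q e` and `b c`
        rcases gap_free hI hI1 hk hr hYq he hb hc heq.symm hbc qb.symm qc.symm heb' hec'
          with h | h | h | h
        · exact hbq h.symm
        · exact notc q hq h.symm
        · exact heb h
        · exact hce h.symm
    have pa : a ≠ p := by rintro rfl; exact nota q hq hE
    have qa : a ≠ q := by rintro rfl; exact nota p hp hE.symm
    have pb : b ≠ p := by rintro rfl; exact nota b hp hab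
    have qb : b ≠ q := by rintro rfl; exact nota b hq hab
    rcases gap_free hI hI1 hk hr ha hb hYp hYq hab hE pa qa pb qb with h | h | h | h
    · exact nota p hp h
    · exact nota q hq h
    · exact main p q hE hp hq h
    · exact main q p hE.symm hq hp h

theorem good_bip (hI : IsMonomialIdeal I) (hI1 : I ≠ ⊤) {k : ℕ} (hk : 1 ≤ k)
    (hr : IsRegularity (I ^ k) ((2 * k : ℕ) : ℤ))
    (hloop : ∀ y, ¬ P I 1 (Finsupp.single y 1) → ¬ E I y y)
    (hpent : ∀ a b c d e, ¬ P I 1 (Finsupp.single a 1) → ¬ P I 1 (Finsupp.single b 1) →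
      ¬ P I 1 (Finsupp.single c 1) → ¬ P I 1 (Finsupp.single d 1) →
      ¬ P I 1 (Finsupp.single e 1) → E I a b → E I b c → E I c d → E I d e → ¬ E I e a)
    {a b : Fin n}
    (ha : ¬ P I 1 (Finsupp.single a 1)) (hb : ¬ P I 1 (Finsupp.single b 1))
    (hab : E I a b) : Good I := by
  classical
  let N : Fin n → Finset (Fin n) := fun y =>
    Finset.univ.filter fun w => ¬ P I 1 (Finsupp.single w 1) ∧ E I y w
  have memN : ∀ y w, w ∈ N y ↔ ¬ P I 1 (Finsupp.single w 1) ∧ E I y w := by
    intro y w; simp [N]
  -- vertex of maximal degree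
  obtain ⟨y, hyY, hymax⟩ := Finset.exists_max_image
    (Finset.univ.filter fun y : Fin n => ¬ P I 1 (Finsupp.single y 1)) (fun y => (N y).card)
    ⟨a, by simp [ha]⟩
  simp only [Finset.mem_filter, Finset.mem_univ, true_and] at hyY hymax
  have hNy : (N y).Nonempty := by
    rw [← Finset.card_pos]
    have h1 := hymax a ha
    have h2 : 0 < (N a).card := Finset.card_pos.mpr ⟨b, (memN a b).mpr ⟨hb, hab⟩⟩
    omega
  -- `N y` covers all edges
  have hcover : ∀ p q, ¬ P I 1 (Finsupp.single p 1) → ¬ P I 1 (Finsupp.single q 1) →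
      E I p q → ¬ E I y p → ¬ E I y q → False := by
    intro p q hp hq hE hyp hyq
    have nyp : y ≠ p := by rintro rfl; exact hyq hE
    have nyq : y ≠ q := by rintro rfl; exact hyp hE.symm
    have hz : ∀ z ∈ N y, E I z p ∨ E I z q := by
      intro z hz
      obtain ⟨hzY, hyz⟩ := (memN y z).mp hz
      have nzp : z ≠ p := by rintro rfl; exact hyp hyz
      have nzq : z ≠ q := by rintro rfl; exact hyq hyz
      rcases gap_free hI hI1 hk hr hyY hzY hp hq hyz hE nyp nyq nzp nzq with h | h | h | h
      · exact absurd h hyp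
      · exact absurd h hyq
      · exact Or.inl h
      · exact Or.inr h
    have key : ∀ p q, ¬ P I 1 (Finsupp.single p 1) → ¬ P I 1 (Finsupp.single q 1) →
        E I p q → ¬ E I y q → (∀ z ∈ N y, E I z p) → False := by
      intro p q hp hq hE hyq hall
      have hsub : insert q (N y) ⊆ N p := by
        intro z hz
        rw [Finset.mem_insert] at hz
        rcases hz with rfl | hz
        · exact (memN p z).mpr ⟨hq, hE⟩
        · exact (memN p z).mpr ⟨((memN y z).mp hz).1, (hall z hz).symm⟩
      have h1 := Finset.card_le_card hsub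
      rw [Finset.card_insert_of_notMem (fun h => hyq ((memN y q).mp h).2)] at h1
      have h2 := hymax p hp
      omega
    by_cases hall : ∀ z ∈ N y, E I z p
    · exact key p q hp hq hE hyq hall
    · by_cases hall' : ∀ z ∈ N y, E I z q
      · exact key q p hq hp hE.symm hyp hall'
      · push Not at hall hall'
        obtain ⟨z, hzN, hzp⟩ := hall
        obtain ⟨z', hzN', hzq'⟩ := hall'
        have hzq : E I z q := (hz z hzN).resolve_left hzp
        have hzp' : E I z' p := (hz z' hzN').resolve_right hzq'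
        obtain ⟨hzY, hyz⟩ := (memN y z).mp hzN
        obtain ⟨hzY', hyz'⟩ := (memN y z').mp hzN'
        exact hpent y z q p z' hyY hzY hq hp hzY' hyz hzq hE.symm hzp'.symm hyz'.symm
  refine ⟨1, Finsupp.single y 1, {q | ¬ P I 1 (Finsupp.single q 1) ∧ E I y q}, le_rfl,
    by omega, by rw [Finsupp.degree_single]; omega, ?_, P_zero _ _, ?_, ?_⟩
  · intro i hi
    have : i = y := by
      by_contra h
      exact hi (by simp [Ne.symm h])
    rwa [this]
  · intro w hw
    exact hw.2
  · intro s hs hW hP
    have hYh : Ysup I (Finsupp.single y 1 + s) := by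
      intro i hi
      by_cases h1 : i = y
      · rwa [h1]
      · refine hs i ?_
        intro h0
        apply hi
        simp [h0, Ne.symm h1]
    obtain ⟨p, q, hpq, hE, hp, hq, -⟩ := exists_edge hI hI1 hk hr hloop hYh hP
    have noty : ∀ i, (Finsupp.single y 1 + s : Fin n →₀ ℕ) i ≠ 0 → ¬ E I y i := by
      intro i hi hEi
      have hsi : s i = 0 := hW i ⟨hYh i hi, hEi⟩
      by_cases h1 : i = y
      · subst h1; exact hloop _ hyY hEi
      exact hi (by simp [hsi, Ne.symm h1])
    exact hcover p q (hYh p hp) (hYh q hq) hE (noty p hp) (noty q hq)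

theorem good (hI : IsMonomialIdeal I) (hI1 : I ≠ ⊤) {k : ℕ} (hk : 1 ≤ k)
    (hr : IsRegularity (I ^ k) ((2 * k : ℕ) : ℤ)) : Good I := by
  by_cases h0 : ∀ h, Ysup I h → ¬ P I 1 h
  · refine ⟨1, 0, ∅, le_rfl, by omega, by simp, fun i hi => absurd rfl hi, P_zero _ _,
      by simp, ?_⟩
    intro s hs _
    rw [zero_add]
    exact h0 s hs
  by_cases hloop : ∀ y, ¬ P I 1 (Finsupp.single y 1) → ¬ E I y y
  swap
  · push Not at hloop
    obtain ⟨y, hy, hyy⟩ := hloop
    exact good_loop hI hI1 hk hr hy hyy
  by_cases htri : ∀ a b c, ¬ P I 1 (Finsupp.single a 1) → ¬ P I 1 (Finsupp.single b 1) →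
      ¬ P I 1 (Finsupp.single c 1) → E I a b → E I b c → ¬ E I a c
  swap
  · push Not at htri
    obtain ⟨a, b, c, ha, hb, hc, hab, hbc, hac⟩ := htri
    exact good_triangle hI hI1 hk hr hloop ha hb hc hab hbc hac
  by_cases hpent : ∀ a b c d e, ¬ P I 1 (Finsupp.single a 1) → ¬ P I 1 (Finsupp.single b 1) →
      ¬ P I 1 (Finsupp.single c 1) → ¬ P I 1 (Finsupp.single d 1) →
      ¬ P I 1 (Finsupp.single e 1) → E I a b → E I b c → E I c d → E I d e → ¬ E I e a
  swap
  · push Not at hpent
    obtain ⟨a, b, c, d, e, ha, hb, hc, hd, he, hab, hbc, hcd, hde, hea⟩ := hpent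
    exact good_pentagon hI hI1 hk hr hloop htri ha hb hc hd he hab hbc hcd hde hea
  push Not at h0
  obtain ⟨h, hY, hP⟩ := h0
  obtain ⟨p, q, hpq, hE, hp, hq, -⟩ := exists_edge hI hI1 hk hr hloop hY hP
  exact good_bip hI hI1 hk hr hloop hpent (hY p hp) (hY q hq) hE

theorem exists_var_mem {p : Ideal (MvPolynomial (Fin n) K)} (hp : p.IsPrime) {s : Fin n →₀ ℕ}
    (hs : monomial s (1 : K) ∈ p) : ∃ i, (X i : MvPolynomial (Fin n) K) ∈ p := by
  induction hd : s.degree generalizing s with
  | zero =>
    rw [Finsupp.degree_eq_zero_iff] at hd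
    subst hd
    exact absurd ((Ideal.eq_top_iff_one p).mpr (by simpa using hs)) hp.ne_top
  | succ d ih =>
    obtain ⟨i, r, rfl, hr⟩ := exists_single_add hd
    have e : monomial (Finsupp.single i 1 + r) (1 : K) = X i * monomial r 1 := by
      rw [X, monomial_mul, one_mul]
    rw [e] at hs
    rcases hp.mem_or_mem hs with h | h
    · exact ⟨i, h⟩
    · exact ih h hr

/-- If `I` contains no variable then the v-number of `I ^ k` is at least `2 k - 1`. -/
theorem vnumber_ge (hI : IsMonomialIdeal I) (hI1 : I ≠ ⊤)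
    (hvar : ∀ i, ¬ P I 1 (Finsupp.single i 1)) {s : Fin n →₀ ℕ} (hs : P I 1 s) {k : ℕ} {v : ℤ}
    (hv : IsVNumber (I ^ k) v) : 2 * (k : ℤ) ≤ v + 1 := by
  obtain ⟨⟨e, he, f, hf, p, hp, hfp⟩, -⟩ := hv
  have hmem : monomial (k • s) (1 : K) ∈ p := by
    rw [← hfp, Submodule.mem_colon_singleton, smul_eq_mul]
    exact Ideal.mul_mem_right _ _ (P_nsmul hs k)
  obtain ⟨i, hi⟩ := exists_var_mem hp hmem
  rw [← hfp, Submodule.mem_colon_singleton, smul_eq_mul] at hi
  have hf0 : f ≠ 0 := by
    rintro rfl
    apply hp.ne_top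
    rw [← hfp, Ideal.eq_top_iff_one, Submodule.mem_colon_singleton, smul_zero]
    exact zero_mem _
  have hXf : X i * f ≠ 0 := mul_ne_zero (X_ne_zero i) hf0
  obtain ⟨m, hm⟩ := Finset.nonempty_iff_ne_empty.mpr (fun h => hXf (support_eq_empty.mp h))
  have hPm := (mem_pow_iff hI k _).mp hi m hm
  have hdeg := two_mul_le hI hI1 (fun j _ => hvar j) hPm
  have hhom : (X i * f).IsHomogeneous (1 + e) := (isHomogeneous_X K i).mul hf
  have hdm : m.degree = 1 + e := by
    have := hhom (mem_support_iff.mp hm)
    rw [Finsupp.degree_eq_weight_one]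
    exact this
  omega

/-- The core statement. -/
theorem core (hI : IsMonomialIdeal I) (hI1 : I ≠ ⊤) {k : ℕ} (hk : 2 ≤ k)
    (hr : IsRegularity (I ^ k) ((2 * k : ℕ) : ℤ)) {b : ℤ} (hkb : b + 1 < k)
    (hb : 2 ≤ b) (hv : IsVNumber (I ^ k) ((k : ℤ) + b)) : False := by
  by_cases hne : ∃ s, P I 1 s
  swap
  · push Not at hne
    have hbot : I = ⊥ := by
      rw [eq_bot_iff]
      intro f hf
      rw [Ideal.mem_bot]
      by_contra h0
      obtain ⟨m, hm⟩ := Finset.nonempty_iff_ne_empty.mpr (fun h => h0 (support_eq_empty.mp h))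
      refine hne m ?_
      have := (hI.mem_iff f).mp hf m hm
      simpa [P] using this
    have h1 : (k : ℤ) + b ≤ 0 := hv.2 ⟨0, rfl, 1, isHomogeneous_one _ _, ⊥, Ideal.isPrime_bot, by
      rw [hbot, Ideal.bot_pow (by omega)]
      ext g
      rw [Submodule.mem_colon_singleton, smul_eq_mul, mul_one]⟩
    omega
  obtain ⟨s, hs⟩ := hne
  by_cases hvar : ∀ i, ¬ P I 1 (Finsupp.single i 1)
  · have := vnumber_ge hI hI1 hvar hs hv
    omega
  push Not at hvar
  obtain ⟨x, hx⟩ := hvar
  obtain ⟨m, u, W, hm1, hm2, hud, hYu, hPu, hW1, hW2⟩ := good hI hI1 (by omega) hr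
  have hprime := colon_prime hI hx hm1 (by omega : m ≤ k) hYu hPu W hW1 hW2
  have hle : (k : ℤ) + b ≤ (((k - m) + u.degree : ℕ) : ℤ) := hv.2 ⟨(k - m) + u.degree, rfl, _,
    isHomogeneous_monomial (d := Finsupp.single x (k - m) + u) 1 (by
      rw [map_add, Finsupp.degree_single]), _, hprime, rfl⟩
  omega

end

end Pool.Agent.Helper25.VReg
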